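import Mathlib

/-! Definitions for the number of vertices of mixed fiber polytopes. -/

set_option autoImplicit false

namespace Pool.Agent.Lib.MP_4e7804_co

/-- The point of `ℝ^m` with the given integral coordinates. -/
def toReal {m : ℕ} (p : Fin m → ℤ) : Fin m → ℝ := fun k => (p k : ℝ)

/-- `P` is a lattice polytope: the convex hull of finitely many lattice points. -/
def IsLatticePolytope {d : ℕ} (P : Set (Fin d → ℝ)) : Prop :=
  ∃ A : Finset (Fin d → ℤ), A.Nonempty ∧ P = convexHull ℝ (toReal '' (A : Set (Fin d → ℤ)))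

/-- The number of vertices of a polytope. -/
noncomputable def numVertices {m : ℕ} (P : Set (Fin m → ℝ)) : ℕ :=
  (P.extremePoints ℝ).ncard

/-- The lattice points of `P`. -/
def latticePoints {d : ℕ} (P : Set (Fin d → ℝ)) : Set (Fin d → ℤ) := {p | toReal p ∈ P}

/-- The monomial `t^p = ∏ t_k^(p_k)` at a point `t` of the torus `(ℂ^*)^d`. -/
noncomputable def mono {d : ℕ} (t : Fin d → ℂˣ) (p : Fin d → ℤ) : ℂ :=
  ∏ k, ((t k ^ p k : ℂˣ) : ℂ)

/-- The point `f(t) = (f_1(t), …, f_n(t))`, where `f_i = ∑ c_i(p) t^p`, the sum over all lattice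
points `p` of `P_i`. -/
noncomputable def evalAt {n d : ℕ} (P : Fin n → Set (Fin d → ℝ)) (c : Fin n → (Fin d → ℤ) → ℂ)
    (t : Fin d → ℂˣ) : Fin n → ℂ :=
  fun i => ∑ᶠ p ∈ latticePoints (P i), c i p * mono t p

/-- The Zariski closure of the image of `f : (ℂ^*)^d → ℂ^n` is the hypersurface `V(F)`, with `F`
irreducible. -/
def IsImplicitEq {n d : ℕ} (P : Fin n → Set (Fin d → ℝ)) (c : Fin n → (Fin d → ℤ) → ℂ)
    (F : MvPolynomial (Fin n) ℂ) : Prop :=
  Irreducible F ∧
    MvPolynomial.zeroLocus ℂ (MvPolynomial.vanishingIdeal ℂ (Set.range (evalAt P c))) =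
      MvPolynomial.zeroLocus ℂ (Ideal.span {F})

/-- The coefficients are generic: all coefficients `c_i(p)`, `p` a lattice point of `P_i`, are
algebraically independent over the rational numbers. -/
def IsGeneric {n d : ℕ} (P : Fin n → Set (Fin d → ℝ)) (c : Fin n → (Fin d → ℤ) → ℂ) : Prop :=
  AlgebraicIndependent ℚ (fun q : (Σ i : Fin n, latticePoints (P i)) => c q.1 q.2)

/-- The Newton polytope of `F`. -/
def newton {n : ℕ} (F : MvPolynomial (Fin n) ℂ) : Set (Fin n → ℝ) :=
  convexHull ℝ ((fun (a : Fin n →₀ ℕ) (i : Fin n) => (a i : ℝ)) '' (F.support : Set (Fin n →₀ ℕ)))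

/-- `N` is the number of vertices of the mixed fiber polytope of some lattice polytopes
`P_1, …, P_n` in `ℝ^d`, `n = d + 1`, with `v_1, …, v_n` vertices: of the Newton polytope of the
implicit equation for generic coefficients. -/
def IsVertexNumber {d : ℕ} (v : Fin (d + 1) → ℕ) (N : ℕ) : Prop :=
  ∃ (P : Fin (d + 1) → Set (Fin d → ℝ)) (c : Fin (d + 1) → (Fin d → ℤ) → ℂ)
    (F : MvPolynomial (Fin (d + 1)) ℂ),
    (∀ i, IsLatticePolytope (P i)) ∧ (∀ i, numVertices (P i) = v i) ∧ IsGeneric P c ∧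
      IsImplicitEq P c F ∧ numVertices (newton F) = N

/-- The maximum `V_n(v_1, …, v_n)`, `n = d + 1`. -/
noncomputable def V {d : ℕ} (v : Fin (d + 1) → ℕ) : ℕ := sSup {N | IsVertexNumber v N}

/-- The value `w · p` of a rational linear form at a lattice point. -/
def dot {d : ℕ} (w : Fin d → ℚ) (p : Fin d → ℤ) : ℚ := ∑ k, w k * p k

end Pool.Agent.Lib.MP_4e7804_co
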